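import Pool.Agent.J6H7.SK.Top

set_option autoImplicit false

/-! # The monodromy conjecture for forms over the Pfaffian ideals of block diagonal skew symmetric matrices

Let the rows `i < N` be divided into `k` blocks, `c i` the block of the row `i`, let `n_b` be the size
of the block `b` (`bsz c b`), and let `M` be the skew symmetric `N × N` matrix with independent entries
`x_{i,j}`, `i < j`, `c i = c j`, in the blocks and zeros outside of the blocks (`skewZ c`). Up to a
permutation of the rows and columns `M` is `diag(X_1, …, X_k)`, `X_b` the generic skew symmetric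
`n_b × n_b` matrix. Let `I_p` be the ideal of the Pfaffians of size `2 p` of `M` (`pfaf`), the sum of the
products `∏ b, Pf_{2 q b}(X_b)` of the ideals of the Pfaffians of the blocks over all `q` with
`∑ b, q b = p`, and let `r = ∑ b, ⌊n_b / 2⌋` (`rkC c`), half of the maximal rank of `M`. Let `p t < r`,
`t < T`, be numbers, which are distributed over `B` groups: `t` belongs to the group `β t`. For `b < B`
let

  `F_b = ∑_J y_{b,J} ∏_{β t = b} Pf_{J t}(x)`,

where `J` runs over the choices of one Pfaffian `Pf_{J t}` of `M` of size `2 p t` for each `t` in the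
group `b`, and the `y_{b,J}` are further variables. So `F_b` is the form over the product of the ideals
`I_{p t}`, `β t = b`. Let `f = ∏ b, F_b ^ a b`, `a b ≥ 1` (`skFormZ`, with integral coefficients, `skK` over
a field).

For a tuple `d = (d_b)`, `d_b ≤ ⌊n_b / 2⌋`, with `d_b < ⌊n_b / 2⌋` for some `b` (`SLoc c`), let `ν_d` be the
codimension of the set `Z_d` of the `x` with `rank X_b ≤ 2 d_b` for all `b`, the sum of the
`(n_b - 2 d_b) (n_b - 2 d_b - 1) / 2` (`SLoc.codim`), and let
`N_d = ∑ t, a (β t) max (p t - ∑ b, d_b, 0)`. The set `skPairs c p β a` consists of the pairs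
`(-ν_d, N_d)` with `N_d > 0` and of the pairs `(-1, a b)`.

The topological zeta function is defined as by Denef and Loeser, from the motivic zeta function
`Z_mot(T) = ∑_d [X_d] 𝕃 ^ (-n d) T ^ d` in `𝓜[[T]]`, `X_d` the `d`-jets on which `f` has the order `d`
(`skZeta` with `W = Set.univ`), `𝓜` the Grothendieck ring of complex varieties, localised at `𝕃`:
`Z_top(s) = χ(Z_mot(𝕃 ^ (-s)))` for `s = 1, 2, 3, …`. For this, let `E` be a homomorphism from `𝓜` to a
domain `R` with `E(𝕃) ≠ 1`, such as the Hodge-Deligne polynomial `E(u, v)`, and `ε` a homomorphism from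
`R` to `ℂ` with `ε(E(𝕃)) = 1`, such as `u, v ↦ 1`, so that `ε ∘ E` is the Euler characteristic `χ`
(`IsTopZeta`).

No resolution is used: the jets are divided according to the orders of the ideals `I_{p t}`, and
these are computed by a recursion: where an entry `x_{i,j}` is a unit, the Schur complement of the
rows and columns `i`, `j` reduces to a matrix of the same kind, the block of `i` and `j` being smaller
by two rows; where `x(0) = 0` one divides by `t`, which gives the denominators
`1 - 𝕃 ^ (-ν_d) T ^ (N_d)`, `d_b` the number of the pivots in the block `b`; the linear conditions on the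
jets of `y` give the denominators `1 - 𝕃 ^ (-1) T ^ (a b)`.
More precisely, the motivic zeta function lies in the ring generated by `T` and the
`(𝕃 - 1) / (1 - 𝕃 ^ c' T ^ e)`, `(c', e)` in `skPairs c p β a`.

The proof for the roots: a functional equation of `f` gives a functional equation of the product of
the powers of the ideals, with the same `b`, and the divisors `E_d` over the `Z_d` are Rees divisors of
this ideal: at a general point of `E_d` the exceptional coordinates are given by quotients of
Pfaffians (the square roots of principal minors), in a chart with the blocks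
`X_b = (A_b, B_b; -B_bᵀ, -B_bᵀ A_b⁻¹ B_b + z Y_b)`, with one equation `z` for all the blocks; the roots
`-1 / a b` come from the strict transforms. -/

namespace Pool.Agent.Results.MP_a2a574_ag.BlockDiagonalPfaffians

open MvPolynomial Pool.Agent.H628R4.TP Pool.Agent.TH192.DT Pool.Agent.TH192.MT
  Pool.Agent.TH192.MU Pool.Agent.W428.MOT Pool.Agent.W574.LM Pool.Agent.J6H7.BD
  Pool.Agent.J6H7.SK

/-- **The topological zeta function of `f = ∏ b, F_b ^ a b`**, the `F_b` the forms over products of ideals
of Pfaffians of a block diagonal skew symmetric matrix with `k` independent generic blocks. There is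
exactly one rational function `Z` with `Z(s) = ε(E(Z_mot(𝕃 ^ (-s))))` for `s = 1, 2, 3, …`; each of its
poles `s₀` is one of the `-ν_d / N_d` and `-1 / a b` and is a root of every `b` with
`b(s) f ^ s = P(s) f ^ (s + 1)`, in particular of the Bernstein-Sato polynomial of `f`. By the theorem
of Malgrange and Kashiwara, `exp(2 π i s₀)` is then an eigenvalue of the monodromy of `f` at some
point. -/
theorem result {N k : ℕ} (c : Fin N → Fin k) (T B : ℕ) (p : Fin T → ℕ) (β : Fin T → Fin B)
    (a : Fin B → ℕ) (hp : ∀ t, p t < rkC c) (ha : ∀ b, 0 < a b)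
    (R : Type) [CommRing R] [IsDomain R] (E : MK ℂ →+* R) (ε : R →+* ℂ)
    (hε : ε (E ((Lu ℂ : (MK ℂ)ˣ) : MK ℂ)) = 1) (hE : E ((Lu ℂ : (MK ℂ)ˣ) : MK ℂ) ≠ 1) :
    ∃ Z : RatFunc ℂ,
      IsTopZeta E ε (skZeta c p β a Set.univ) Z ∧
      (∀ Z', IsTopZeta E ε (skZeta c p β a Set.univ) Z' → Z' = Z) ∧
      ∀ s₀ : ℂ, Z.denom.eval s₀ = 0 →
        (∃ q ∈ skPairs c p β a, s₀ = (q.1 : ℂ) / q.2) ∧
        ∀ b : Polynomial ℂ, IsBFunction (skK c ℂ p β a) b →
          b.eval s₀ = 0 := by
  obtain ⟨Z, h1, h2, h3⟩ := fam_top β a (Pool.Agent.J6H7.SK.codim_pos c) (sk_ratS c ℂ p hp) ha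
    Constr.univ E ε hε hE
  refine ⟨Z, h1, h2, fun s₀ hs => ?_⟩
  obtain ⟨q, hq, rfl⟩ := h3 s₀ hs
  exact ⟨⟨q, hq, rfl⟩, (fam_roots β a (sk_sys c p hp) q hq).2.2.1⟩

end Pool.Agent.Results.MP_a2a574_ag.BlockDiagonalPfaffians
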